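import Mathlib
import Pool.Agent.R691.Mip.Top

/-!
# MP_8bb7de_al: the modular isomorphism problem over all fields when `D_3(G) = 1`, `p` odd

Let `p` be an odd prime and `G` a finite group whose third dimension subgroup `D_3(G)` over a field
of characteristic `p` is trivial. If `F` is any field of characteristic `p` and `H` any group with
`FG ≅ FH` as `F`-algebras, then `G ≅ H`.

The proof attaches to an isomorphism a twisted form `M * F_p ^ n` of the first Frattini layer and
shows, with the help of a Witt vector like invariant of units of order `p` (computed in an integral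
Heisenberg group), that the Frobenius twist of `M` differs from `M` by an element of the algebra of
right multipliers of the commutator form. A Lang type argument (descent of Frobenius stable spaces
and Lovász cancellation of finite modules) then gives the isomorphism.
-/

set_option autoImplicit false

namespace Pool.Agent.Results.MP_8bb7de_al.OddPrimeAllFields

open MonoidAlgebra
open scoped commutatorElement

/-- The augmentation ideal `Δ(FG)`, the kernel of the algebra map `FG → F` which sends every group
element to `1` (a subspace of `FG`; its powers are spanned by products). -/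
noncomputable def Delta (F : Type*) [Field F] (G : Type*) [Group G] :
    Submodule F (MonoidAlgebra F G) :=
  LinearMap.ker (MonoidAlgebra.lift F F G (1 : G →* F)).toLinearMap

/-- The `n`-th dimension subgroup `D_n(G) = G ∩ (1 + Δ(FG)^n)`, as a set. -/
def D (F : Type*) [Field F] (G : Type*) [Group G] (n : ℕ) : Set G :=
  {g | single g (1 : F) - 1 ∈ Delta F G ^ n}

section
variable {F : Type*} [Field F] {G : Type*} [Group G]

lemma single_sub_mem (g : G) : single g (1 : F) - 1 ∈ Delta F G := by
  rw [Delta, LinearMap.mem_ker]
  simp [one_def]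

lemma Delta_mul_top : Delta F G * ⊤ ≤ Delta F G := by
  rw [Submodule.mul_le]
  intro a ha b _
  rw [Delta, LinearMap.mem_ker] at ha ⊢
  change MonoidAlgebra.lift F F G (1 : G →* F) a = 0 at ha
  change MonoidAlgebra.lift F F G (1 : G →* F) (a * b) = 0
  rw [map_mul, ha, zero_mul]

lemma pow_mul_mem (k : ℕ) {x : MonoidAlgebra F G} (hx : x ∈ Delta F G ^ (k + 1))
    (y : MonoidAlgebra F G) : x * y ∈ Delta F G ^ (k + 1) := by
  have h1 : Delta F G ^ (k + 1) * ⊤ ≤ Delta F G ^ (k + 1) := by
    rw [pow_succ, mul_assoc]
    exact mul_le_mul' le_rfl Delta_mul_top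
  exact h1 (Submodule.mul_mem_mul hx (Submodule.mem_top))

lemma comm_eq (a b : G) : single ⁅a, b⁆ (1 : F) - 1 =
    ((single a (1 : F) - 1) * (single b (1 : F) - 1) -
      (single b (1 : F) - 1) * (single a (1 : F) - 1)) * single (a⁻¹ * b⁻¹) 1 := by
  have h1 : (single a (1 : F) - 1) * (single b (1 : F) - 1) -
      (single b (1 : F) - 1) * (single a (1 : F) - 1) =
      single a (1 : F) * single b 1 - single b (1 : F) * single a 1 := by noncomm_ring
  rw [h1, sub_mul, single_mul_single, single_mul_single, single_mul_single, single_mul_single,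
    one_def]
  have h2 : a * b * (a⁻¹ * b⁻¹) = ⁅a, b⁆ := by rw [commutatorElement_def]; group
  have h3 : b * a * (a⁻¹ * b⁻¹) = 1 := by group
  rw [h2, h3]
  simp

lemma comm_mem (a b : G) : single ⁅a, b⁆ (1 : F) - 1 ∈ Delta F G ^ 2 := by
  rw [comm_eq]
  apply pow_mul_mem 1
  rw [pow_two]
  exact Submodule.sub_mem _ (Submodule.mul_mem_mul (single_sub_mem a) (single_sub_mem b))
    (Submodule.mul_mem_mul (single_sub_mem b) (single_sub_mem a))

lemma comm_comm_mem (a b c : G) : single ⁅⁅a, b⁆, c⁆ (1 : F) - 1 ∈ Delta F G ^ 3 := by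
  rw [comm_eq]
  apply pow_mul_mem 2
  apply Submodule.sub_mem
  · rw [pow_succ]
    exact Submodule.mul_mem_mul (comm_mem a b) (single_sub_mem c)
  · rw [pow_succ']
    exact Submodule.mul_mem_mul (single_sub_mem c) (comm_mem a b)

lemma pow_p_mem {p : ℕ} [hp : Fact p.Prime] [CharP F p] (h3 : 3 ≤ p) (g : G) :
    single (g ^ p) (1 : F) - 1 ∈ Delta F G ^ 3 := by
  have hc : CharP (MonoidAlgebra F G) p := charP_of_injective_algebraMap
    (algebraMap F (MonoidAlgebra F G)).injective p
  have h1 : single (g ^ p) (1 : F) - 1 = (single g (1 : F) - 1) ^ p := by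
    rw [sub_pow_char_of_commute _ (Commute.one_right _), one_pow, single_pow, one_pow]
  obtain ⟨k, rfl⟩ := Nat.exists_eq_add_of_le h3
  rw [h1, pow_add]
  apply pow_mul_mem 2
  exact Submodule.pow_mem_pow _ (single_sub_mem g) 3

end

/-- For odd `p`: if `D_3(G) = 1` (computed over some field `K` of characteristic `p`), then for
every field `F` of characteristic `p` and every group `H`, `FG ≅ FH` implies `G ≅ H`. -/
theorem result (p : ℕ) [Fact p.Prime] (hp : p ≠ 2) (G : Type*) [Group G] [Finite G]
    (K : Type*) [Field K] [CharP K p] (hD : D K G 3 = {1})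
    (F : Type*) [Field F] [CharP F p] (H : Type*) [Group H]
    (e : Nonempty (MonoidAlgebra F G ≃ₐ[F] MonoidAlgebra F H)) : Nonempty (G ≃* H) := by
  obtain ⟨e⟩ := e
  have hD1 : ∀ g : G, single g (1 : K) - 1 ∈ Delta K G ^ 3 → g = 1 := by
    intro g hg
    have : g ∈ D K G 3 := hg
    rwa [hD] at this
  have h3 : 3 ≤ p := by
    have := (Fact.out : p.Prime).two_le
    omega
  apply Pool.Agent.R691.Mip.iso_of_class_two hp (F := F) (G := G) (H := H) _ _ e
  · intro x y z
    have := hD1 _ (comm_comm_mem x y z)
    exact commutatorElement_eq_one_iff_mul_comm.1 this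
  · intro x
    exact hD1 _ (pow_p_mem h3 x)

end Pool.Agent.Results.MP_8bb7de_al.OddPrimeAllFields
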